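import Mathlib
import Pool.Agent.Results.MP_5d6127_an.BoundFails

/-!
# The bounded shear `F^M` is never an extreme point of `S⁰(U², M)`

For every `M > 1` the map `F^M(z) = (z₁ + (1 - 1/M) z₂², z₂)` lies in `S⁰(U², M)` and is a
proper convex combination of two different elements of `S⁰(U², M)`.
-/

set_option autoImplicit false

open Filter Topology

namespace Pool.Agent.Results.MP_d9fe16_an.NotExtreme

/-- The open unit bidisc: the open unit ball of `ℂ × ℂ`, whose norm is the maximum norm. -/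
def U2 : Set (ℂ × ℂ) := Metric.ball 0 1

/-- A normal Loewner chain on the bidisc. -/
structure NormalLoewnerChain (F : ℂ × ℂ → ℝ → ℂ × ℂ) : Prop where
  /-- each `F(·,t)` is holomorphic on the bidisc -/
  holo : ∀ t : ℝ, 0 ≤ t → DifferentiableOn ℂ (fun z => F z t) U2
  /-- each `F(·,t)` is univalent (injective) on the bidisc -/
  inj : ∀ t : ℝ, 0 ≤ t → Set.InjOn (fun z => F z t) U2
  /-- `F(0,t) = 0` -/
  map_zero : ∀ t : ℝ, 0 ≤ t → F 0 t = 0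
  /-- `DF(0,t) = e^t I` -/
  deriv_zero : ∀ t : ℝ, 0 ≤ t →
    fderiv ℂ (fun z => F z t) 0 = (Real.exp t : ℂ) • ContinuousLinearMap.id ℂ (ℂ × ℂ)
  /-- the images increase -/
  mono : ∀ s t : ℝ, 0 ≤ s → s ≤ t → (fun z => F z s) '' U2 ⊆ (fun z => F z t) '' U2
  /-- `{e^{-t} F(·,t)}` is a normal family: every sequence in it has a subsequence that
  converges locally uniformly on the bidisc -/
  normal : ∀ u : ℕ → ℝ, (∀ n, 0 ≤ u n) → ∃ (φ : ℕ → ℕ) (g : ℂ × ℂ → ℂ × ℂ), StrictMono φ ∧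
    TendstoLocallyUniformlyOn
      (fun n z => (Real.exp (-(u (φ n))) : ℂ) • F z (u (φ n))) g atTop U2

/-- The class `S⁰(U²)` of mappings with parametric representation (as mappings on `U²`). -/
def S0 : Set (ℂ × ℂ → ℂ × ℂ) :=
  {f | ∃ F : ℂ × ℂ → ℝ → ℂ × ℂ, NormalLoewnerChain F ∧ ∀ z ∈ U2, f z = F z 0}

/-- The class `S⁰(U², M)`. -/
def S0M (M : ℝ) : Set (ℂ × ℂ → ℂ × ℂ) := {f | f ∈ S0 ∧ ∀ z ∈ U2, ‖f z‖ ≤ M}

/-- `f` is an extreme point of the family `𝓕` of mappings on `U²`: it belongs to `𝓕` and it is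
not of the form `λ g + (1 - λ) h` on `U²` with `0 < λ < 1` and `g, h ∈ 𝓕` different on `U²`. -/
def IsExtremePt (𝓕 : Set (ℂ × ℂ → ℂ × ℂ)) (f : ℂ × ℂ → ℂ × ℂ) : Prop :=
  f ∈ 𝓕 ∧ ¬ ∃ g ∈ 𝓕, ∃ h ∈ 𝓕, ∃ lam ∈ Set.Ioo (0 : ℝ) 1, (∃ z ∈ U2, g z ≠ h z) ∧
    ∀ z ∈ U2, f z = (lam : ℂ) • g z + ((1 - lam : ℝ) : ℂ) • h z

/-- The map `F^M(z) = (z₁ + (1 - 1/M) z₂², z₂)`. -/
noncomputable def FM (M : ℝ) (z : ℂ × ℂ) : ℂ × ℂ := (z.1 + ((1 - 1 / M : ℝ) : ℂ) * z.2 ^ 2, z.2)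

lemma S0M_of {f : ℂ × ℂ → ℂ × ℂ} {M : ℝ}
    (hf : f ∈ Pool.Agent.Results.MP_5d6127_an.BoundFails.S0M M) : f ∈ S0M M := by
  obtain ⟨⟨F, hF, hfF⟩, hM⟩ := hf
  exact ⟨⟨F, ⟨hF.holo, hF.inj, hF.map_zero, hF.deriv_zero, hF.mono, hF.normal⟩, hfF⟩, hM⟩

lemma shear_mem {a : ℝ} (ha : 0 ≤ a) (ha1 : a ≤ 1) {M : ℝ} (hM : 1 ≤ M) (haM : 1 + a ≤ M) :
    (fun z : ℂ × ℂ => ((z.1 + (a : ℂ) * z.2 ^ 2, z.2) : ℂ × ℂ)) ∈ S0M M :=
  S0M_of (Pool.Agent.Results.MP_5d6127_an.BoundFails.shear_mem ha ha1 hM haM)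

/-- For every `M > 1` the map `F^M` belongs to `S⁰(U², M)` and is not an extreme point of it. -/
theorem result (M : ℝ) (hM : 1 < M) : FM M ∈ S0M M ∧ ¬ IsExtremePt (S0M M) (FM M) := by
  have hM0 : 0 < M := by linarith
  have h1M : 0 < 1 / M := by positivity
  set a : ℝ := min 1 (M - 1) with ha
  have ha0 : 0 < a := lt_min one_pos (by linarith)
  have ha1 : a ≤ 1 := min_le_left _ _
  have haM : 1 + a ≤ M := by have := min_le_right 1 (M - 1); linarith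
  have h2 : 1 - 1 / M = (M - 1) / M := by field_simp
  have hc0 : 0 < 1 - 1 / M := by rw [h2]; exact div_pos (by linarith) hM0
  have hca : 1 - 1 / M < a := by
    rw [ha, lt_min_iff]
    refine ⟨by linarith, ?_⟩
    rw [h2, div_lt_iff₀ hM0]
    nlinarith
  refine ⟨shear_mem hc0.le (hca.le.trans ha1) hM.le (by linarith), ?_⟩
  rintro ⟨-, hno⟩
  apply hno
  refine ⟨_, shear_mem ha0.le ha1 hM.le haM, _, shear_mem le_rfl zero_le_one hM.le (by linarith),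
    (1 - 1 / M) / a, ⟨div_pos hc0 ha0, (div_lt_one ha0).2 hca⟩, ?_, ?_⟩
  · refine ⟨(0, 1 / 2), ?_, ?_⟩
    · unfold U2
      rw [mem_ball_zero_iff, Prod.norm_def]
      norm_num
    · intro h
      have h3 := congrArg Prod.fst h
      simp only at h3
      have hac : (a : ℂ) ≠ 0 := by exact_mod_cast ha0.ne'
      apply hac
      have h4 : (a : ℂ) * (1 / 2) ^ 2 = 0 := by simpa using h3
      simpa using h4
  · intro z _
    have hac : (a : ℂ) ≠ 0 := by exact_mod_cast ha0.ne'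
    have hMc : (M : ℂ) ≠ 0 := by exact_mod_cast hM0.ne'
    refine Prod.ext ?_ ?_
    · simp only [FM, Prod.smul_mk, smul_eq_mul, Prod.mk_add_mk]
      push_cast
      field_simp
      ring
    · simp only [FM, Prod.smul_mk, smul_eq_mul, Prod.mk_add_mk]
      push_cast
      ring

end Pool.Agent.Results.MP_d9fe16_an.NotExtreme
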